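import Pool.Agent.H71.VK.Stmt

/-! SWG: gluing a swap from an isomorphism of two components. -/

set_option autoImplicit false

open Set Pool.Agent.TK

namespace Pool.Agent.H71.VK

/-- lists in `D ∪ ms s` -/
theorem swg_list {C : Type} {M : St C} {s : List ℕ} {D D' : Set ℕ} {h : ℕ → ℕ}
    (H : FIh h M s D M s D') (f : ℕ → ℕ) (hfD : ∀ x ∈ D, f x = h x) (hfs : ∀ x ∈ s, f x = x)
    (l : List ℕ) (hl : ∀ z ∈ l, z ∈ D ∨ z ∈ s) :
    M.2 l = M.2 (l.map f) ∧ ∀ u ∈ l, ∀ v ∈ l, M.1 u v = M.1 (f u) (f v) := by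
  classical
  have hx := H.2.2 (l.filter (fun z => decide (z ∈ D))) (by
    intro z hz
    simpa using (List.mem_filter.1 hz).2)
  have hmem : ∀ z ∈ l, (z, f z) ∈ s.zip s ++
      (l.filter (fun z => decide (z ∈ D))).map (fun z => (z, h z)) := by
    intro z hz
    rw [List.mem_append]
    by_cases hzD : z ∈ D
    · right
      rw [List.mem_map]
      refine ⟨z, List.mem_filter.2 ⟨hz, by simpa using hzD⟩, ?_⟩
      rw [hfD z hzD]
    · left
      have hzs : z ∈ s := (hl z hz).resolve_left hzD
      rw [hfs z hzs, ← dg_eq_zip]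
      exact mem_dg.2 ⟨rfl, hzs⟩
  refine ⟨?_, fun u hu v hv => ?_⟩
  · have h1 := hx.2.2 (l.map (fun z => (z, f z))) (by
      intro z hz
      obtain ⟨w, hw, rfl⟩ := List.mem_map.1 hz
      exact hmem w hw)
    rw [List.map_map, List.map_map] at h1
    have e1 : l.map (Prod.fst ∘ fun z => (z, f z)) = l := by
      conv_rhs => rw [← List.map_id l]
      rfl
    have e2 : l.map (Prod.snd ∘ fun z => (z, f z)) = l.map f := rfl
    rw [e1, e2] at h1
    exact h1
  · exact hx.2.1 _ (hmem u hu) _ (hmem v hv)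

theorem pf_SWG {C : Type} {c0 : C} : SWG C c0 := by
  classical
  intro M hM s D D' h hD hD' hne H
  have hdisj : ∀ x, x ∈ D → x ∉ D' := fun x hx hx' => hne (hD.eq_of_inter hM hD' hx hx')
  have hDs : ∀ x ∈ D, x ∉ s := fun x hx hs => Set.disjoint_left.1 hD.disj hx hs
  have hD's : ∀ x ∈ D', x ∉ s := fun x hx hs => Set.disjoint_left.1 hD'.disj hx hs
  obtain ⟨g, G, hgh, hhg⟩ := H.symm
  have hhm : ∀ x ∈ D, h x ∈ D' := fun x hx => H.2.1.mapsTo hx
  have hgm : ∀ x ∈ D', g x ∈ D := fun x hx => G.2.1.mapsTo hx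
  set f0 : ℕ → ℕ := fun x => if x ∈ D then h x else if x ∈ D' then g x else x with hf0
  have f1 : ∀ x ∈ D, f0 x = h x := fun x hx => if_pos hx
  have f2 : ∀ x ∈ D', f0 x = g x := by
    intro x hx
    have : x ∉ D := fun h' => hdisj x h' hx
    simp only [hf0, if_neg this, if_pos hx]
  have f3 : ∀ x, x ∉ D → x ∉ D' → f0 x = x := by
    intro x h1 h2
    simp only [hf0, if_neg h1, if_neg h2]
  have fs : ∀ x ∈ s, f0 x = x := fun x hx =>
    f3 x (fun h' => hDs x h' hx) (fun h' => hD's x h' hx)
  have hinv : Function.Involutive f0 := by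
    intro x
    by_cases h1 : x ∈ D
    · rw [f1 x h1, f2 _ (hhm x h1), hgh x h1]
    · by_cases h2 : x ∈ D'
      · rw [f2 x h2, f1 _ (hgm x h2), hhg x h2]
      · rw [f3 x h1 h2, f3 x h1 h2]
  -- the neighbours
  have nD : ∀ u v, u ∈ D → M.1 u v = true → v ∈ D ∨ v ∈ s := by
    intro u v hu hE
    by_cases hv : v ∈ D
    · exact Or.inl hv
    · exact Or.inr (hD.nb hM ⟨hv, u, hu, by rw [hM.1]; exact hE⟩)
  have nD' : ∀ u v, u ∈ D' → M.1 u v = true → v ∈ D' ∨ v ∈ s := by
    intro u v hu hE
    by_cases hv : v ∈ D'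
    · exact Or.inl hv
    · exact Or.inr (hD'.nb hM ⟨hv, u, hu, by rw [hM.1]; exact hE⟩)
  -- edges
  have edge1 : ∀ u v, M.1 u v = true → M.1 (f0 u) (f0 v) = true := by
    intro u v hE
    have hE' : M.1 v u = true := by rw [hM.1]; exact hE
    by_cases hu : u ∈ D
    · rw [← (swg_list H f0 f1 fs [u, v] (by
        intro z hz
        simp only [List.mem_cons, List.not_mem_nil, or_false] at hz
        rcases hz with rfl | rfl
        · exact Or.inl hu
        · exact nD u z hu hE)).2 u (by simp) v (by simp)]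
      exact hE
    by_cases hu' : u ∈ D'
    · rw [← (swg_list G f0 f2 fs [u, v] (by
        intro z hz
        simp only [List.mem_cons, List.not_mem_nil, or_false] at hz
        rcases hz with rfl | rfl
        · exact Or.inl hu'
        · exact nD' u z hu' hE)).2 u (by simp) v (by simp)]
      exact hE
    by_cases hv : v ∈ D
    · rw [← (swg_list H f0 f1 fs [u, v] (by
        intro z hz
        simp only [List.mem_cons, List.not_mem_nil, or_false] at hz
        rcases hz with rfl | rfl
        · exact nD v z hv hE'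
        · exact Or.inl hv)).2 u (by simp) v (by simp)]
      exact hE
    by_cases hv' : v ∈ D'
    · rw [← (swg_list G f0 f2 fs [u, v] (by
        intro z hz
        simp only [List.mem_cons, List.not_mem_nil, or_false] at hz
        rcases hz with rfl | rfl
        · exact nD' v z hv' hE'
        · exact Or.inl hv')).2 u (by simp) v (by simp)]
      exact hE
    rw [f3 u hu hu', f3 v hv hv']
    exact hE
  have val1 : ∀ l : List ℕ, M.2 l ≠ c0 → M.2 l = M.2 (l.map f0) := by
    intro l hl
    have hc := hM.2.2 l hl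
    by_cases h1 : ∃ u ∈ l, u ∈ D
    · obtain ⟨u, hu, huD⟩ := h1
      refine (swg_list H f0 f1 fs l fun z hz => ?_).1
      by_cases hzu : u = z
      · exact Or.inl (hzu ▸ huD)
      · exact nD u z huD (hc u hu z hz hzu)
    by_cases h2 : ∃ u ∈ l, u ∈ D'
    · obtain ⟨u, hu, huD⟩ := h2
      refine (swg_list G f0 f2 fs l fun z hz => ?_).1
      by_cases hzu : u = z
      · exact Or.inl (hzu ▸ huD)
      · exact nD' u z huD (hc u hu z hz hzu)
    push Not at h1 h2
    have e1 : l.map f0 = l := by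
      conv_rhs => rw [← List.map_id l]
      refine List.map_congr_left fun z hz => ?_
      rw [f3 z (h1 z hz) (h2 z hz)]
      rfl
    rw [e1]
  refine ⟨hinv.toPerm f0, ⟨fun u v => ?_, fun l => ?_⟩, hinv, f1, ?_, f3⟩
  · show M.1 u v = M.1 (f0 u) (f0 v)
    by_cases h1 : M.1 u v = true
    · rw [h1, edge1 u v h1]
    · by_cases h2 : M.1 (f0 u) (f0 v) = true
      · have h3 := edge1 _ _ h2
        rw [hinv u, hinv v] at h3
        exact absurd h3 h1
      · rw [Bool.not_eq_true] at h1 h2
        rw [h1, h2]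
  · show M.2 l = M.2 (l.map f0)
    by_cases h1 : M.2 l = c0
    · by_cases h2 : M.2 (l.map f0) = c0
      · rw [h1, h2]
      · have h3 := val1 _ h2
        rw [List.map_map] at h3
        have e1 : f0 ∘ f0 = id := funext hinv
        rw [e1, List.map_id] at h3
        exact h3.symm
    · exact val1 l h1
  · show f0 '' D = D'
    ext y
    constructor
    · rintro ⟨x, hx, rfl⟩
      rw [f1 x hx]
      exact hhm x hx
    · intro hy
      exact ⟨g y, hgm y hy, by rw [f1 _ (hgm y hy), hhg y hy]⟩

end Pool.Agent.H71.VK
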